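import Pool.Agent.H780.R2.Fin
import Pool.Agent.H780.RG.Whole
import Pool.Agent.Results.MP_aeade1_gt.NearVolume

/-!
# Convex discs of the round sphere are strictly minimal fillings, surfaces of any genus

Let `D` be a closed convex region of the round sphere `S²`, a Lipschitz image of the unit disc, which is
contained in a disc of radius `arcsin s`, `s ≤ 0.947` (71.2 degrees).  Let `M` be a metric space with
compact closed balls, for instance a complete Riemannian surface, of any genus, let the subset `N` of `M`
be an oriented Riemannian surface whose boundary is a circle, and let the distances in `M` of the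
boundary points be at least those of the corresponding boundary points of `D` in `S²`.  Then the area of
`N`, and already the area of the set `A` of the points of `N` close to the boundary, is at least the area
of `D` (this is NearVolume for `n = 2`).  Here we treat the case of equality: if the area of `A` is equal to
the area of `D`, then `A` is isometric to `D` (possibly without one point), and if `N = M`, then `M` is
isometric to `D`, by an isometry which is the given map on the boundary.  So round convex discs of
radius at most 71.2 degrees are the only fillings of least area of their boundary distances, among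
oriented surfaces of any genus.  The conjecture of Gromov on the filling area of the circle is the case of
the hemisphere, of radius 90 degrees.

Proof.  In dimension at least three the case of equality is in our theorem ConvexSphericalRegions; the
only part of the proof which does not work in dimension two is the case of equality in the pointwise
inequality.  For `2 × 2` matrices `B`, `D`, the form is `det B - det D`, and the Bessel inequality gives
`|B|² + P |D₁|² + Q |D₂|² ≤ 2` with `P = (1 - p₁) / p₁`, `Q = (1 - p₂) / p₂`, for the weights `p₁, p₂`, of
sum one.  The sum of the weights can be made smaller than one, as the condition on the radius holds with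
strict inequality (`GX`, `GA`), and then `P Q > 1`, `2 |det D| ≤ P |D₁|² + P⁻¹ |D₂|²`, so that
`det B - det D = 1` is possible only for `D = 0`, `|B|² = 2`, `B` orthogonal (`KEQ`).  The rest of the
proof is the same (`ABSE`, `COME`, `COMBE`, `Ptwe`, `Eqv`, `Ident`, `Fin`).
-/

set_option autoImplicit false

open MeasureTheory Metric Set InnerProductGeometry

namespace Pool.Agent.Results.MP_ecf18f_gt.ConvexDiscs

open Pool.Agent.H241R3.FV Pool.Agent.N526.CP Pool.Agent.N979.CP Pool.Agent.H780.NV

/-- The area of a subset of the hemisphere, described by orthogonal projection to the unit disc. -/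
noncomputable def setArea (A : Set (E 2)) : ℝ := ∫ X in A, (√(1 - ‖X‖ ^ 2))⁻¹

/-- The central projection of the open hemisphere.  The point `X` of the open unit disc stands for
the point of the hemisphere with orthogonal projection `X`; great circles are mapped to straight
lines. -/
noncomputable def gnomonic (X : E 2) : E 2 := (√(1 - ‖X‖ ^ 2))⁻¹ • X

/-- `F` is a Lipschitz homeomorphism, preserving the orientation, of the closed unit disc onto a closed
convex region (its central projection is convex) in the cap of radius `arcsin s`, the open disc is
mapped onto the interior; `r x > 0` is at least the distance of `F x` from the centre of the cap. -/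
structure ConvexRegion (s : ℝ) (F : E 2 → E 2) (r : Sph 2 → ℝ) : Prop where
  lip : ∃ L : NNReal, LipschitzOnWith L F (closedBall 0 1)
  range : ∀ y ∈ closedBall (0 : E 2) 1, ‖F y‖ ≤ s
  inj : InjOn F (closedBall 0 1)
  int : F '' ball 0 1 = interior (F '' closedBall 0 1)
  convex : Convex ℝ (gnomonic '' (F '' closedBall 0 1))
  orient : ∀ᵐ y ∂(volume.restrict (ball (0 : E 2) 1)), 0 ≤ (fderiv ℝ F y).det
  radius : ∀ x : Sph 2, 0 < r x ∧ Real.arcsin ‖F x‖ ≤ r x
  bdd : ∃ B : ℝ, ∀ x, r x ≤ B

/-- Any two points of `M` are joined by a shortest path, in the form: there are points at all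
intermediate distances from them. -/
def Geodesic (M : Type) [MetricSpace M] : Prop :=
  ∀ (q q' : M) (t : ℝ), 0 ≤ t → t ≤ dist q q' → ∃ p, dist q p = t ∧ dist p q' = dist q q' - t

/-- Let `0 < s ≤ 0.947`, let `M` be a metric space with compact closed balls, for example a compact or
complete Riemannian surface, and let the subset `N` of `M` be an oriented Riemannian surface with
boundary circle `bd` (`N = M` if `M` is itself oriented and has no other boundary).  Let `F` map the
closed unit disc onto the convex region `D` in the disc of radius `arcsin s` of the sphere, let the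
distances in `M` of the boundary points be at least the distances in the sphere of their images, and let
`N` contain the set `A` of the points of `M` at distance less than `r x` from some boundary point `bd x`,
where `r x` is at least the distance of `F x` from the centre of the disc.
(1) The area of `A` is at least the area of `D`.
(2) If it is equal to it and if shortest paths exist in `M`, then there is an isometric map `Φ` of `D`
to `M` with `Φ (F x) = bd x` on the boundary, whose image contains `A` and which maps `D` without the
centre to `A`.  If `N = M`, then `M` is the image of `Φ`. -/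
theorem result (s : ℝ) (h0 : 0 < s) (hs : s ≤ 947 / 1000)
    (M : Type) [MetricSpace M] [ProperSpace M] (bd : Sph 2 → M) (N : Set M)
    (S : NFill 2 M bd N) (F : E 2 → E 2) (r : Sph 2 → ℝ) (hF : ConvexRegion s F r)
    (hbd : ∀ x y : Sph 2, hdist (F x) (F y) ≤ dist (bd x) (bd y)) (hN : near bd r ⊆ N) :
    ENNReal.ofReal (setArea (F '' ball 0 1)) ≤ S.part (near bd r) ∧
    (Geodesic M → S.part (near bd r) = ENNReal.ofReal (setArea (F '' ball 0 1)) →
      ∃ Φ : E 2 → M,
        (∀ y ∈ F '' closedBall 0 1, ∀ z ∈ F '' closedBall 0 1, dist (Φ y) (Φ z) = hdist y z) ∧
        (∀ x : Sph 2, Φ (F x) = bd x) ∧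
        near bd r ⊆ Φ '' (F '' closedBall 0 1) ∧
        Φ '' (F '' closedBall 0 1 \ {0}) ⊆ near bd r ∧
        (N = univ → Φ '' (F '' closedBall 0 1) = univ)) := by
  have hG : Good2 1 s := Fin.good2_all le_rfl h0 (Or.inl ⟨rfl, hs⟩)
  obtain ⟨⟨L, hL⟩, hr, hinj, hint, hconv, hor, hrad, B, hB⟩ := hF
  have hreg : H780.RG.CReg F := ⟨hL.continuousOn, fun y hy => (hr y hy).trans_lt hG.2.1, hinj,
    hint, hconv⟩
  have hdom : MP_aeade1_gt.NearVolume.Dominates bd s F r := ⟨⟨L, hL⟩, hr, hbd, hrad, B, hB⟩
  refine ⟨((MP_aeade1_gt.NearVolume.result 1 le_rfl s h0 (Or.inl ⟨rfl, hs⟩) M bd N S).1 F r hdom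
    hN).2 (hinj.mono ball_subset_closedBall) hor, fun hM hV => ?_⟩
  have hb : ∀ x, bd x ∈ near bd r := fun x => ⟨x, by rw [dist_self]; exact (hrad x).1⟩
  obtain ⟨S', hS'⟩ := exists_restr S (N := near bd r) isOpen_near hN hb
  rw [← hS'] at hV
  obtain ⟨Φ, h1, h2, h3, h4⟩ := H780.R2.Fin.rigid le_rfl (H780.R2.Fin.cb_two h0 hs) hG hM S' hB F L
    hL hr hbd (fun x => (hrad x).2) hreg hor hV.le
  refine ⟨Φ, h1, h2, h3, h4, fun hu => ?_⟩
  subst hu
  exact H780.RG.Whole.whole (by omega) hM S hb hreg h1 h3 h4

end Pool.Agent.Results.MP_ecf18f_gt.ConvexDiscs
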