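import Pool.Agent.H780.NV.P1

/-!
# The area near the boundary circle is at least `1.96 π`, for complete surfaces of any genus

The library proves (AreaAnyGenus) that compact oriented Riemannian surfaces which fill the circle of
length `2π` without shortcuts have area at least `1.96 π`, and (CompleteSurfaces, FarPart) that the
part at distance less than `π / 2` from the boundary circle has area at least `1.901 π`, also in complete
surfaces.  Here the latter is improved to `1.96 π`.  Only the part at distance less than `π / 2` from
the boundary circle has to be an oriented surface; the rest of `M` is arbitrary, closed balls of `M` are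
compact.  The area of the rest is to be added to `1.96 π`; so Gromov's inequality holds if it is at
least `0.04 π`.

Proof.  The family of `1`-Lipschitz functions `g_θ` with boundary values `arcsin (s ⟨x, θ⟩)` of
AreaAnyGenus is replaced by its truncation to `[-h, h]`, `h` the maximum of `π / 2` minus the distance
from the boundary circle, and `0`.
-/

set_option autoImplicit false

open MeasureTheory Metric Set InnerProductGeometry

namespace Pool.Agent.Results.MP_ecf18f_gt.NearArea196

open Pool.Agent.H241R3.FV Pool.Agent.N526.CP Pool.Agent.H780.NV

/-- Let `M` be a metric space with compact closed balls, for example a complete Riemannian surface, and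
let the subset `N` of `M` be an oriented Riemannian surface whose boundary is the circle `bd` of length
`2π`, such that boundary points `x`, `y` have at least the distance in `M` which they have in the circle
(the angle between the unit vectors `x` and `y`).  If `N` contains the set `A` of all points of `M` at
distance less than `π / 2` from the circle, then the area of `A` is at least `1.96 π`, and the area of
`N` is at least `1.96 π` plus the area of the rest of `N`. -/
theorem result (M : Type) [MetricSpace M] [ProperSpace M] (bd : Sph 2 → M) (N : Set M)
    (S : NFill 2 M bd N)
    (hS : ∀ x y : Sph 2, angle (x : E 2) (y : E 2) ≤ dist (bd x) (bd y))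
    (hN : (near bd fun _ => Real.pi / 2) ⊆ N) :
    ENNReal.ofReal (1.96 * Real.pi) ≤ S.part (near bd fun _ => Real.pi / 2) ∧
    ENNReal.ofReal (1.96 * Real.pi) + S.part {q | ∀ x, Real.pi / 2 ≤ dist q (bd x)} ≤ S.vol := by
  obtain ⟨S', hS'⟩ := exists_restr S (N := near bd fun _ => Real.pi / 2) isOpen_near hN
    (fun x => ⟨x, by rw [dist_self]; exact Real.pi_div_two_pos⟩)
  have h1 : ENNReal.ofReal (1.96 * Real.pi) ≤ S.part (near bd fun _ => Real.pi / 2) := by
    rw [← hS']
    exact P1.area S' hS
  refine ⟨h1, ?_⟩
  have h2 : {q | ∀ x, Real.pi / 2 ≤ dist q (bd x)} = (near bd fun _ => Real.pi / 2)ᶜ := by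
    ext q
    simp [near]
  rw [h2, ← partVol_add S (N := near bd fun _ => Real.pi / 2) isOpen_near]
  exact add_le_add_left h1 _

end Pool.Agent.Results.MP_ecf18f_gt.NearArea196
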