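import Pool.Agent.H780.RO.Anti
import Pool.Agent.H780.RO.ARC
import Pool.Agent.H780.RO.CONE
import Pool.Agent.Results.MP_ecf18f_gt.ConvexDiscs

/-!
# Fillings of the circle which are round outside a convex region, any genus

Let `H` be the closed hemisphere of `S²` with pole `m`, and let `D` be a closed convex subset of `H`
which is contained in a disc of `S²` of radius `arcsin s`, `s ≤ 0.947` (71.2 degrees), with centre `c`,
for instance the intersection of `H` with this disc.  The centre `c` is arbitrary, for example it may be
on the boundary of `H` or outside of `H`, and `D` may meet the boundary of `H`.  Let `K` be an oriented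
Riemannian surface, of any genus, whose boundary is a circle, and let `M` be the union of `H` without the
interior of `D` and of `K`, glued along the boundary of `D`.  If antipodal points of the boundary
circle of `H` have distance at least `π` in `M`, in particular if this circle has no shortcuts in `M`, then the area of `K` is at least that of `D`; so the area of `M` is at least `2π`, and
the filling area conjecture holds for all fillings, of any genus, which are round outside a disc of
radius 71.2 degrees with any centre (replace `D` by the intersection of the disc with `H`).  If the areas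
are equal, then `K` is isometric to `D`, so that the hemisphere is the only filling of area `2π` of this
kind.

It is sufficient to take the area of the part `A` of `K` near its boundary, of the points at distance
less than `r x` from some boundary point `bd x`, where `r x` is at least the distance of the corresponding
point `F x` of `D` from `c`, and only `A` has to be an oriented surface; `K` is then any metric space with
compact closed balls, e.g. a complete Riemannian surface, of infinite genus, with further boundary
circles, or not orientable outside of `A`.

Proof.  Let `a ≠ b` be boundary points of `D`.  The great circle through `a` and `b` is continued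
beyond `a` and beyond `b` until it meets the boundary of `H` in antipodal points `x` and `-x`.  As `D` is
convex, the arcs from `x` to `a` and from `b` to `-x` do not meet the interior of `D`.  So
`π ≤ d(x, -x) ≤ d(x, a) + d_M(a, b) + d(b, -x)`, and this gives `d_K(a, b) ≥ d(a, b)` (`ARC`,
`CONE`).  So `K` has at least the boundary distances of the convex region `D` of the disc about `c`, and
the theorem ConvexDiscs on the boundary distances of convex regions applies, also in the case of
equality.
-/

set_option autoImplicit false

open MeasureTheory Metric Set InnerProductGeometry

namespace Pool.Agent.Results.MP_ecf18f_gt.RoundOutsideConvex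

open Pool.Agent.H241R3.FV Pool.Agent.N526.CP Pool.Agent.N979.CP Pool.Agent.H780.NV
open Pool.Agent.Results.MP_ecf18f_gt.ConvexDiscs (setArea gnomonic ConvexRegion Geodesic)

/-- The point of the unit sphere `S²` of `E 3`, in the open hemisphere with pole `c`, with
orthogonal projection `X`; `J` is a linear isometry onto the orthogonal complement of `c`. -/
noncomputable def pt (c : E 3) (J : E 2 →ₗᵢ[ℝ] E 3) (X : E 2) : E 3 :=
  √(1 - ‖X‖ ^ 2) • c + J X

/-- The cone over the interior of the region `D = F (closed unit disc)` of the sphere. -/
def cone (F : E 2 → E 2) (c : E 3) (J : E 2 →ₗᵢ[ℝ] E 3) : Set (E 3) :=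
  {z | ∃ t : ℝ, 0 < t ∧ ∃ X ∈ F '' ball 0 1, z = t • pt c J X}

/-- `M` consists of the round piece, the closed hemisphere `H` with pole `m` without the interior of the
region `D = F (closed unit disc)` of the cap about `c`, and of the space `K`, glued along the boundary
of `D`. -/
structure Glued {K M : Type} [MetricSpace K] [MetricSpace M] (bd : Sph 2 → K)
    (F : E 2 → E 2) (m c : E 3) (J : E 2 →ₗᵢ[ℝ] E 3) (j : K → M) (ι : E 3 → M) : Prop where
  /-- `J` maps to the orthogonal complement of the unit vector `c` -/
  orth : ‖c‖ = 1 ∧ ∀ v, inner ℝ (J v) c = 0
  /-- the region is contained in the hemisphere -/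
  sub : ∀ y ∈ closedBall (0 : E 2) 1, 0 ≤ inner ℝ (pt c J (F y)) m
  /-- the interior of the region is contained in the open hemisphere -/
  sub_int : ∀ y ∈ ball (0 : E 2) 1, 0 < inner ℝ (pt c J (F y)) m
  /-- the map of the inner part is `1`-Lipschitz -/
  inside : ∀ x y, dist (j x) (j y) ≤ dist x y
  /-- the map of the round piece does not increase the lengths of great circle segments of the
  hemisphere which avoid the interior of the region -/
  outside : ∀ x y : E 3, ‖x‖ = 1 → ‖y‖ = 1 → 0 ≤ inner ℝ x m → 0 ≤ inner ℝ y m → x ≠ -y →
    (∀ s t : ℝ, 0 ≤ s → 0 ≤ t → s • x + t • y ∉ cone F c J) → dist (ι x) (ι y) ≤ angle x y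
  /-- the maps agree on the boundary of the region -/
  glue : ∀ x : Sph 2, ι (pt c J (F x)) = j (bd x)

/-- Antipodal points of the boundary circle of the hemisphere with pole `m` have distance at least `π`
in `M`.  This holds if the boundary circle has no shortcuts in `M`. -/
def FarAntipodes {M : Type} [MetricSpace M] (m : E 3) (ι : E 3 → M) : Prop :=
  ∀ x : E 3, ‖x‖ = 1 → inner ℝ x m = 0 → Real.pi ≤ dist (ι x) (ι (-x))

/-- Let `0 < s ≤ 0.947`, let `K` be a metric space with compact closed balls, for example a compact or
complete Riemannian surface, and let the subset `N` of `K` be an oriented Riemannian surface with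
boundary circle `bd` (`N = K` if `K` is itself oriented and has no other boundary).  Let `D` be a convex
region in the closed hemisphere `H` with pole `m` and in the disc of radius `arcsin s` about `c`, let `M` be
the union of `H` without the interior of `D` and `K`, glued along the boundary of `D`, and suppose that
antipodal points of the boundary circle of `H` have distance at least `π` in `M` (this holds if there are
no shortcuts).  Let `N` contain the set `A` of the points of `K` at
distance less than `r x` from some boundary point `bd x`.
(1) The area of `A` is at least the area of `D`.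
(2) If it is equal to it and if shortest paths exist in `K`, then there is an isometric map `Φ` of `D`
to `K` with `Φ (F x) = bd x` on the boundary, whose image contains `A` and which maps `D` without the
centre `c` to `A`.  If `N = K`, then `K` is the image of `Φ`. -/
theorem result (s : ℝ) (h0 : 0 < s) (hs : s ≤ 947 / 1000)
    (K : Type) [MetricSpace K] [ProperSpace K] (bd : Sph 2 → K) (N : Set K)
    (S : NFill 2 K bd N) (F : E 2 → E 2) (r : Sph 2 → ℝ)
    (hF : ConvexRegion s F r) (hN : near bd r ⊆ N) (M : Type) [MetricSpace M] (m c : E 3)
    (J : E 2 →ₗᵢ[ℝ] E 3) (j : K → M) (ι : E 3 → M)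
    (hG : Glued bd F m c J j ι) (hM : FarAntipodes m ι) :
    ENNReal.ofReal (setArea (F '' ball 0 1)) ≤ S.part (near bd r) ∧
    (Geodesic K → S.part (near bd r) = ENNReal.ofReal (setArea (F '' ball 0 1)) →
      ∃ Φ : E 2 → K,
        (∀ y ∈ F '' closedBall 0 1, ∀ z ∈ F '' closedBall 0 1, dist (Φ y) (Φ z) = hdist y z) ∧
        (∀ x : Sph 2, Φ (F x) = bd x) ∧
        near bd r ⊆ Φ '' (F '' closedBall 0 1) ∧
        Φ '' (F '' closedBall 0 1 \ {0}) ⊆ near bd r ∧
        (N = univ → Φ '' (F '' closedBall 0 1) = univ)) := by
  obtain ⟨L, hL⟩ := hF.lip
  have hreg : H780.RG.CReg F := ⟨hL.continuousOn, fun y hy => (hF.range y hy).trans_lt (by linarith),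
    hF.inj, hF.int, hF.convex⟩
  exact ConvexDiscs.result s h0 hs K bd N S F r hF
    (H780.RO.dist_le H780.RO.CONE.main H780.RO.ARC.main hreg hG.orth.1 hG.orth.2
      (fun x => hG.sub x (sphere_subset_closedBall x.2)) hG.inside hG.outside hG.glue
      (H780.RO.nonshort (H780.RO.cone_pos hG.sub_int) hG.outside hM)) hN

end Pool.Agent.Results.MP_ecf18f_gt.RoundOutsideConvex
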